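import Pool.Agent.P.MP_65bf67_nt.Final

set_option autoImplicit false

namespace Pool.Agent.Results.MP_65bf67_nt.SevenSuffice

/-- Every natural number is a sum of seven (possibly zero) tetrahedral numbers. -/
theorem result (N : ℕ) :
    ∃ f : Fin 7 → ℕ, N = ∑ i, f i * (f i + 1) * (f i + 2) / 6 := by
  obtain ⟨a, b, c, d, e, f, g, h⟩ := Pool.Agent.P.MP_65bf67_nt.sum7_all N
  refine ⟨![a, b, c, d, e, f, g], ?_⟩
  rw [h, Fin.sum_univ_seven]
  rfl

end Pool.Agent.Results.MP_65bf67_nt.SevenSuffice
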